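import Pool.Agent.PolyTime.Classes
import Mathlib

/-!
There are only countably many polynomial-time functions.
-/

namespace Pool.Agent.PolyTime.Prog

open Function

deriving instance Countable for Prog

variable {K : Type} [DecidableEq K]

theorem Exec.det {p : Prog K} {S S' : St K} {t : ℕ} (h : Exec p S S' t) :
    ∀ {S'' : St K} {t' : ℕ}, Exec p S S'' t' → S'' = S' := by
  induction h with
  | skip S => intro _ _ h; cases h; rfl
  | push k b S => intro _ _ h; cases h; rfl
  | pop k S => intro _ _ h; cases h; rfl
  | seq _ _ ih1 ih2 =>
    intro _ _ h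
    cases h with
    | seq h1 h2 =>
      have := ih1 h1
      subst this
      exact ih2 h2
  | ite_nil hk _ ih =>
    intro _ _ h
    cases h with
    | ite_nil _ h => exact ih h
    | ite_false hk' _ => simp [hk] at hk'
    | ite_true hk' _ => simp [hk] at hk'
  | ite_false hk _ ih =>
    intro _ _ h
    cases h with
    | ite_nil hk' h => simp [hk] at hk'
    | ite_false hk' h => exact ih h
    | ite_true hk' _ => simp [hk] at hk'
  | ite_true hk _ ih =>
    intro _ _ h
    cases h with
    | ite_nil hk' h => simp [hk] at hk'
    | ite_false hk' h => simp [hk] at hk'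
    | ite_true hk' h => exact ih h
  | loop_nil hk =>
    intro _ _ h
    cases h with
    | loop_nil _ => rfl
    | loop_false hk' _ _ => simp [hk] at hk'
    | loop_true hk' _ _ => simp [hk] at hk'
  | loop_false hk _ _ ih1 ih2 =>
    intro _ _ h
    cases h with
    | loop_nil hk' => simp [hk] at hk'
    | loop_false hk' h1 h2 =>
      have e := hk.symm.trans hk'
      simp only [List.cons.injEq, true_and] at e
      subst e
      have := ih1 h1
      subst this
      exact ih2 h2
    | loop_true hk' _ _ => simp [hk] at hk'
  | loop_true hk _ _ ih1 ih2 =>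
    intro _ _ h
    cases h with
    | loop_nil hk' => simp [hk] at hk'
    | loop_false hk' _ _ => simp [hk] at hk'
    | loop_true hk' h1 h2 =>
      have e := hk.symm.trans hk'
      simp only [List.cons.injEq, true_and] at e
      subst e
      have := ih1 h1
      subst this
      exact ih2 h2

end Pool.Agent.PolyTime.Prog

namespace Pool.Agent.Helper86.Rel

open Pool.Agent.PolyTime Pool.Agent.PolyTime.Prog Function

/-- Every polynomial-time function is computed by a program whose registers are numbers. -/
theorem exists_prog_nat {f : List Bool → List Bool} (hf : FP f) :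
    ∃ v : Prog ℕ × ℕ × ℕ, ∀ x, ∃ t, Exec v.1 (single v.2.1 x) (single v.2.2 (f x)) t := by
  obtain ⟨K, _, _, k₀, k₁, p, P, h⟩ := ProgFP_of_FP hf
  obtain ⟨i, hi⟩ : ∃ i : K → ℕ, Injective i :=
    ⟨fun k => (Fintype.equivFin K k : ℕ), fun a b h =>
      (Fintype.equivFin K).injective (Fin.ext h)⟩
  refine ⟨(p.map i, i k₀, i k₁), fun x => ?_⟩
  obtain ⟨t, _, ht⟩ := h x
  have hs : ∀ (k : K) (y : List Bool) (j : K), single (i k) y (i j) = single k y j := by
    intro k y j
    unfold single
    by_cases hj : j = k
    · subst hj; simp
    · rw [update_of_ne (fun e => hj (hi e)), update_of_ne hj]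
  have h1 := ht.map hi (single (i k₀) x) (fun k => hs _ _ _)
  refine ⟨t, ?_⟩
  have h2 : ov i (single (i k₀) x) (single k₁ (f x)) = single (i k₁) (f x) := by
    funext j
    by_cases hj : ∃ l, i l = j
    · obtain ⟨l, rfl⟩ := hj
      rw [ov_apply hi, hs]
    · rw [ov_apply_of_not _ _ _ hj]
      unfold single
      rw [update_of_ne, update_of_ne]
      · rintro rfl; exact hj ⟨_, rfl⟩
      · rintro rfl; exact hj ⟨_, rfl⟩
  rwa [h2] at h1

theorem countable_fp : {f : List Bool → List Bool | FP f}.Countable := by
  classical
  have hc : Countable (Prog ℕ × ℕ × ℕ) := inferInstance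
  let e : {f : List Bool → List Bool // FP f} → Prog ℕ × ℕ × ℕ :=
    fun f => (exists_prog_nat f.2).choose
  have he : Injective e := by
    intro f g h
    apply Subtype.ext
    funext x
    obtain ⟨t, ht⟩ := (exists_prog_nat f.2).choose_spec x
    obtain ⟨t', ht'⟩ := (exists_prog_nat g.2).choose_spec x
    have h1 : (exists_prog_nat f.2).choose = (exists_prog_nat g.2).choose := h
    rw [← h1] at ht'
    have h2 := ht.det ht'
    have h3 := congrFun h2 (exists_prog_nat f.2).choose.2.2
    simp only [single, update_self] at h3
    exact h3.symm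
  exact he.countable

/-- an enumeration of the polynomial-time functions -/
theorem exists_enum : ∃ e : ℕ → List Bool → List Bool, (∀ n, FP (e n)) ∧
    ∀ f, FP f → ∃ n, e n = f := by
  obtain ⟨e, he⟩ := countable_fp.exists_eq_range ⟨_, FP.id⟩
  refine ⟨e, fun n => ?_, fun f hf => ?_⟩
  · have : e n ∈ {f : List Bool → List Bool | FP f} := by rw [he]; exact ⟨n, rfl⟩
    exact this
  · have : f ∈ {f : List Bool → List Bool | FP f} := hf
    rw [he] at this
    exact this

/-- a fixed enumeration of the polynomial-time functions -/
noncomputable def fpEnum : ℕ → List Bool → List Bool := exists_enum.choose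

theorem fp_fpEnum (n : ℕ) : FP (fpEnum n) := exists_enum.choose_spec.1 n

theorem exists_fpEnum {f : List Bool → List Bool} (hf : FP f) : ∃ n, fpEnum n = f :=
  exists_enum.choose_spec.2 f hf

end Pool.Agent.Helper86.Rel
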