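import Pool.Agent.Helper86.Rel.Strings
import Pool.Agent.Helper86.Rel.Count

/-!
Codes for polynomial-time functions with an oracle, and the use principle.
-/

namespace Pool.Agent.Helper86.Rel

open Pool.Agent.PolyTime

/-- codes of polynomial-time functions with an oracle -/
inductive Code : Type
  | base (n : ℕ) : Code
  | orc : Code
  | comp (c d : Code) : Code
  | pair (c d : Code) : Code
  | iter (c g h : Code) (k : ℕ) : Code
  deriving Countable

open Classical in
/-- evaluation of a code with the oracle `O` -/
noncomputable def Code.eval (O : Set (List Bool)) : Code → List Bool → List Bool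
  | base n, x => fpEnum n x
  | orc, x => [decide (x ∈ O)]
  | comp c d, x => c.eval O (d.eval O x)
  | pair c d, x => pr (c.eval O x) (d.eval O x)
  | iter c g h k, x => (fun s => (c.eval O s).take ((x.length + 2) ^ k))^[(g.eval O x).length]
      (h.eval O x)

/-- every function computable with the oracle has a code -/
theorem exists_code {O : Set (List Bool)} {f : List Bool → List Bool} (hf : FPO O f) :
    ∃ c : Code, ∀ x, c.eval O x = f x := by
  induction hf with
  | base hf =>
    obtain ⟨n, hn⟩ := exists_fpEnum hf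
    exact ⟨Code.base n, fun x => by rw [← hn]; rfl⟩
  | oracle => exact ⟨Code.orc, fun x => rfl⟩
  | comp _ _ ihg ihf =>
    obtain ⟨c, hc⟩ := ihg
    obtain ⟨d, hd⟩ := ihf
    exact ⟨Code.comp c d, fun x => by rw [Code.eval, hd, hc]⟩
  | pair _ _ ihf ihg =>
    obtain ⟨c, hc⟩ := ihf
    obtain ⟨d, hd⟩ := ihg
    exact ⟨Code.pair c d, fun x => by rw [Code.eval, hd, hc]⟩
  | @iter f g h _ _ _ p hp ihf ihg ihh =>
    obtain ⟨c, hc⟩ := ihf
    obtain ⟨d, hd⟩ := ihg
    obtain ⟨e, he⟩ := ihh
    obtain ⟨k, hk⟩ := exists_pow_bound p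
    refine ⟨Code.iter c d e k, fun x => ?_⟩
    rw [Code.eval, hd, he]
    have key : ∀ i, i ≤ (g x).length →
        (fun s => (c.eval O s).take ((x.length + 2) ^ k))^[i] (h x) = f^[i] (h x) := by
      intro i
      induction i with
      | zero => intro _; rfl
      | succ i ih =>
        intro hi
        rw [Function.iterate_succ_apply', Function.iterate_succ_apply', ih (by omega), hc]
        apply List.take_of_length_le
        have := (hp x (i + 1) hi).trans (hk _)
        rwa [Function.iterate_succ_apply'] at this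
    exact key _ le_rfl

/-- A numeric function is polynomially bounded. -/
def PolyB (b : ℕ → ℕ) : Prop := ∃ k, ∀ n, b n ≤ (n + 2) ^ k

theorem PolyB.pow (k : ℕ) : PolyB (fun n => (n + 2) ^ k) := ⟨k, fun _ => le_rfl⟩

theorem PolyB.const (c : ℕ) : PolyB (fun _ => c) := ⟨c, fun n => const_le_pow n c⟩

theorem PolyB.id : PolyB (fun n => n) := ⟨1, fun n => self_le_pow n⟩

theorem PolyB.add {b c : ℕ → ℕ} (hb : PolyB b) (hc : PolyB c) : PolyB (fun n => b n + c n) := by
  obtain ⟨k, hk⟩ := hb
  obtain ⟨l, hl⟩ := hc
  exact ⟨max k l + 1, fun n => (add_le_add (hk n) (hl n)).trans (pow_add_le _ _ _)⟩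

theorem PolyB.mul {b c : ℕ → ℕ} (hb : PolyB b) (hc : PolyB c) : PolyB (fun n => b n * c n) := by
  obtain ⟨k, hk⟩ := hb
  obtain ⟨l, hl⟩ := hc
  refine ⟨k + l, fun n => ?_⟩
  rw [pow_add]
  exact Nat.mul_le_mul (hk n) (hl n)

theorem PolyB.comp {b c : ℕ → ℕ} (hb : PolyB b) (hc : PolyB c) : PolyB (fun n => b (c n)) := by
  obtain ⟨k, hk⟩ := hb
  obtain ⟨l, hl⟩ := hc.add (PolyB.const 2)
  refine ⟨l * k, fun n => (hk _).trans ?_⟩
  rw [pow_mul]
  exact Nat.pow_le_pow_left (hl n) _

theorem PolyB.mono {b c : ℕ → ℕ} (hb : PolyB b) (h : ∀ n, c n ≤ b n) : PolyB c := by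
  obtain ⟨k, hk⟩ := hb
  exact ⟨k, fun n => (h n).trans (hk n)⟩

/-- `Q` is a set of at most `b` strings of length at most `b` on which the value depends. -/
def UseSet (O : Set (List Bool)) (F : Set (List Bool) → List Bool) (b : ℕ)
    (Q : Finset (List Bool)) : Prop :=
  Q.card ≤ b ∧ (∀ q ∈ Q, q.length ≤ b) ∧ ∀ O', (∀ q ∈ Q, (q ∈ O' ↔ q ∈ O)) → F O' = F O

theorem code_use (c : Code) : ∃ b : ℕ → ℕ, PolyB b ∧ ∀ O x, (c.eval O x).length ≤ b x.length ∧
    ∃ Q : Finset (List Bool), UseSet O (fun O' => c.eval O' x) (b x.length) Q := by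
  classical
  induction c with
  | base n =>
    obtain ⟨k, hk⟩ := (fp_fpEnum n).length_pow
    refine ⟨_, PolyB.pow k, fun O x => ⟨hk x, ∅, by simp, by simp, fun O' _ => rfl⟩⟩
  | orc =>
    refine ⟨fun n => n + 1, PolyB.id.add (PolyB.const 1), fun O x => ⟨by simp [Code.eval], {x},
      by simp, by simp, fun O' h => ?_⟩⟩
    simp only [Finset.mem_singleton, forall_eq] at h
    simp [Code.eval, h]
  | comp c d ihc ihd =>
    obtain ⟨b, hb, hb'⟩ := ihc
    obtain ⟨e, he, he'⟩ := ihd
    obtain ⟨k, hk⟩ := hb
    refine ⟨fun n => (e n + 2) ^ k + e n, ((PolyB.pow k).comp he).add he, fun O x => ?_⟩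
    beta_reduce
    obtain ⟨h1, Q, hQ1, hQ2, hQ3⟩ := he' O x
    obtain ⟨h2, R, hR1, hR2, hR3⟩ := hb' O (d.eval O x)
    have h3 : b (d.eval O x).length ≤ (e x.length + 2) ^ k :=
      (hk _).trans (Nat.pow_le_pow_left (by omega) _)
    refine ⟨?_, Q ∪ R, ?_, ?_, ?_⟩
    · rw [Code.eval]; omega
    · have := Finset.card_union_le Q R
      omega
    · intro q hq
      rcases Finset.mem_union.1 hq with hq | hq
      · have := hQ2 q hq; omega
      · have := hR2 q hq; omega
    · intro O' hO'
      have h4 := hQ3 O' (fun q hq => hO' q (Finset.mem_union_left _ hq))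
      have h5 := hR3 O' (fun q hq => hO' q (Finset.mem_union_right _ hq))
      beta_reduce at h4 h5 ⊢
      rw [Code.eval, Code.eval, h4, h5]
  | pair c d ihc ihd =>
    obtain ⟨b, hb, hb'⟩ := ihc
    obtain ⟨e, he, he'⟩ := ihd
    refine ⟨fun n => 2 * b n + 1 + e n, (((PolyB.const 2).mul hb).add (PolyB.const 1)).add he,
      fun O x => ?_⟩
    beta_reduce
    obtain ⟨h1, Q, hQ1, hQ2, hQ3⟩ := he' O x
    obtain ⟨h2, R, hR1, hR2, hR3⟩ := hb' O x
    refine ⟨?_, Q ∪ R, ?_, ?_, ?_⟩
    · rw [Code.eval, length_pr]; omega
    · have := Finset.card_union_le Q R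
      omega
    · intro q hq
      rcases Finset.mem_union.1 hq with hq | hq
      · have := hQ2 q hq; omega
      · have := hR2 q hq; omega
    · intro O' hO'
      have h4 := hQ3 O' (fun q hq => hO' q (Finset.mem_union_left _ hq))
      have h5 := hR3 O' (fun q hq => hO' q (Finset.mem_union_right _ hq))
      beta_reduce at h4 h5 ⊢
      rw [Code.eval, Code.eval, h4, h5]
  | iter c g h k ihc ihg ihh =>
    obtain ⟨b, ⟨kb, hkb⟩, hb'⟩ := ihc
    obtain ⟨e, he, he'⟩ := ihg
    obtain ⟨a, ha, ha'⟩ := ihh
    refine ⟨fun n => e n * (((n + 2) ^ k + a n) + 2) ^ kb + (e n + a n) + (n + 2) ^ k, ?_,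
      fun O x => ?_⟩
    · exact ((he.mul ((PolyB.pow kb).comp ((PolyB.pow k).add ha))).add (he.add ha)).add
        (PolyB.pow k)
    · beta_reduce
      obtain ⟨h1, Q, hQ1, hQ2, hQ3⟩ := he' O x
      obtain ⟨h2, R, hR1, hR2, hR3⟩ := ha' O x
      set L := (x.length + 2) ^ k with hL
      set M := (L + a x.length + 2) ^ kb with hM
      have hlen : ∀ i, ((fun s => (c.eval O s).take L)^[i] (h.eval O x)).length ≤
          L + a x.length := by
        intro i
        cases i with
        | zero => simp only [Function.iterate_zero, id_eq]; omega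
        | succ i =>
          rw [Function.iterate_succ_apply', List.length_take]
          omega
      have key : ∀ i, ∃ T : Finset (List Bool), T.card ≤ i * M ∧ (∀ q ∈ T, q.length ≤ M) ∧
          ∀ O', (∀ q ∈ T, (q ∈ O' ↔ q ∈ O)) →
            (fun s => (c.eval O' s).take L)^[i] (h.eval O x) =
            (fun s => (c.eval O s).take L)^[i] (h.eval O x) := by
        intro i
        induction i with
        | zero => exact ⟨∅, by simp, by simp, fun O' _ => rfl⟩
        | succ i ih =>
          obtain ⟨T, hT1, hT2, hT3⟩ := ih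
          obtain ⟨h3, U, hU1, hU2, hU3⟩ := hb' O ((fun s => (c.eval O s).take L)^[i] (h.eval O x))
          have h4 : b ((fun s => (c.eval O s).take L)^[i] (h.eval O x)).length ≤ M :=
            (hkb _).trans (Nat.pow_le_pow_left (by have := hlen i; omega) _)
          refine ⟨T ∪ U, ?_, ?_, ?_⟩
          · have := Finset.card_union_le T U
            rw [Nat.succ_mul]
            omega
          · intro q hq
            rcases Finset.mem_union.1 hq with hq | hq
            · exact hT2 q hq
            · exact (hU2 q hq).trans h4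
          · intro O' hO'
            have h5 := hT3 O' (fun q hq => hO' q (Finset.mem_union_left _ hq))
            have h6 := hU3 O' (fun q hq => hO' q (Finset.mem_union_right _ hq))
            beta_reduce at h6
            rw [Function.iterate_succ_apply', Function.iterate_succ_apply', h5, h6]
      obtain ⟨T, hT1, hT2, hT3⟩ := key (g.eval O x).length
      have hTc : T.card ≤ e x.length * M := hT1.trans (Nat.mul_le_mul_right _ h1)
      rcases Nat.eq_zero_or_pos (e x.length) with h0 | h0
      · have hg0 : (g.eval O x).length = 0 := by omega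
        refine ⟨?_, Q ∪ R, ?_, ?_, ?_⟩
        · rw [Code.eval, hg0]
          simp only [Function.iterate_zero, id_eq]
          omega
        · have := Finset.card_union_le Q R
          omega
        · intro q hq
          rcases Finset.mem_union.1 hq with hq | hq
          · have := hQ2 q hq; omega
          · have := hR2 q hq; omega
        · intro O' hO'
          have h4 := hQ3 O' (fun q hq => hO' q (Finset.mem_union_left _ hq))
          have h5 := hR3 O' (fun q hq => hO' q (Finset.mem_union_right _ hq))
          beta_reduce at h4 h5 ⊢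
          rw [Code.eval, Code.eval, h4, h5, hg0]
          rfl
      · have hMe : M ≤ e x.length * M := Nat.le_mul_of_pos_left _ h0
        refine ⟨?_, (Q ∪ R) ∪ T, ?_, ?_, ?_⟩
        · rw [Code.eval]
          have := hlen (g.eval O x).length
          rw [← hL]
          omega
        · have h7 := Finset.card_union_le Q R
          have h8 := Finset.card_union_le (Q ∪ R) T
          omega
        · intro q hq
          rcases Finset.mem_union.1 hq with hq | hq
          · rcases Finset.mem_union.1 hq with hq | hq
            · have := hQ2 q hq; omega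
            · have := hR2 q hq; omega
          · have := hT2 q hq; omega
        · intro O' hO'
          have h4 := hQ3 O' (fun q hq => hO' q (Finset.mem_union_left _
            (Finset.mem_union_left _ hq)))
          have h5 := hR3 O' (fun q hq => hO' q (Finset.mem_union_left _
            (Finset.mem_union_right _ hq)))
          have h6 := hT3 O' (fun q hq => hO' q (Finset.mem_union_right _ hq))
          beta_reduce at h4 h5 ⊢
          rw [Code.eval, Code.eval, h4, h5, ← hL]
          exact h6

end Pool.Agent.Helper86.Rel
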