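import Pool.Agent.PolyTime.Classes
import Pool.Agent.PolyTime.More

/-!
Polynomial time relative to an oracle: string functions.
-/

namespace Pool.Agent.Helper86.Rel

open Pool.Agent.PolyTime

open Classical in
/-- String functions computable in polynomial time relative to the oracle `O`: the least class
that contains all polynomial-time functions (Turing machines) and the oracle, and is closed under
composition, pairing and polynomially bounded iteration. -/
inductive FPO (O : Set (List Bool)) : (List Bool → List Bool) → Prop
  | base {f : List Bool → List Bool} (hf : FP f) : FPO O f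
  | oracle : FPO O (fun x => [decide (x ∈ O)])
  | comp {g f : List Bool → List Bool} (hg : FPO O g) (hf : FPO O f) : FPO O (fun x => g (f x))
  | pair {f g : List Bool → List Bool} (hf : FPO O f) (hg : FPO O g) :
      FPO O (fun x => pr (f x) (g x))
  | iter {f g h : List Bool → List Bool} (hf : FPO O f) (hg : FPO O g) (hh : FPO O h)
      (p : Polynomial ℕ)
      (hp : ∀ x i, i ≤ (g x).length → (f^[i] (h x)).length ≤ p.eval x.length) :
      FPO O (fun x => f^[(g x).length] (h x))

variable {O : Set (List Bool)}

protected theorem FPO.congr {f g : List Bool → List Bool} (hf : FPO O f) (h : ∀ x, f x = g x) :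
    FPO O g := by
  have : f = g := funext h
  rwa [← this]

protected theorem FPO.id : FPO O (fun x => x) := FPO.base FP.id

protected theorem FPO.nil : FPO O (fun _ => []) := FPO.base FP.nil

protected theorem FPO.cons (b : Bool) : FPO O (fun x => b :: x) := FPO.base (FP.cons b)

protected theorem FPO.tail : FPO O (fun x => x.tail) := FPO.base FP.tail

protected theorem FPO.p1 : FPO O p1 := FPO.base FP.p1

protected theorem FPO.p2 : FPO O p2 := FPO.base FP.p2

/-- case distinction as a single function -/
def selFn (t : List Bool) : List Bool :=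
  match p1 t with
  | [] => p1 (p2 t)
  | false :: _ => p1 (p2 (p2 t))
  | true :: _ => p2 (p2 (p2 t))

theorem fp_selFn : FP selFn :=
  FP.cases FP.p1 (FP.p1' FP.p2) (FP.p1' (FP.p2' FP.p2)) (FP.p2' (FP.p2' FP.p2))

protected theorem FPO.cases {c f g h : List Bool → List Bool} (hc : FPO O c) (hf : FPO O f)
    (hg : FPO O g) (hh : FPO O h) : FPO O (fun x => match c x with
      | [] => f x
      | false :: _ => g x
      | true :: _ => h x) := by
  refine ((FPO.base fp_selFn).comp (hc.pair (hf.pair (hg.pair hh)))).congr (fun x => ?_)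
  unfold selFn
  simp only [p1_pr, p2_pr]

protected theorem FPO.length_pow {f : List Bool → List Bool} (hf : FPO O f) :
    ∃ k, ∀ x, (f x).length ≤ (x.length + 2) ^ k := by
  induction hf with
  | base hf => exact hf.length_pow
  | oracle => exact ⟨0, fun x => by simp⟩
  | @comp g f _ _ ihg ihf =>
    obtain ⟨k, hk⟩ := ihg
    obtain ⟨l, hl⟩ := ihf
    refine ⟨(l + 2) * k, fun x => (hk _).trans ?_⟩
    rw [pow_mul]
    refine Nat.pow_le_pow_left ?_ _
    have h1 := hl x
    have h2 : (x.length + 2) ^ (l + 2) = (x.length + 2) ^ l * ((x.length + 2) * (x.length + 2)) := by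
      ring
    have h3 : 1 ≤ (x.length + 2) ^ l := Nat.one_le_pow _ _ (by omega)
    have h4 : (x.length + 2) ^ l * 4 ≤ (x.length + 2) ^ l * ((x.length + 2) * (x.length + 2)) :=
      Nat.mul_le_mul_left _ (by nlinarith)
    omega
  | @pair f g _ _ ihf ihg =>
    obtain ⟨k, hk⟩ := ihf
    obtain ⟨l, hl⟩ := ihg
    refine ⟨max k l + 2, fun x => ?_⟩
    rw [length_pr]
    have h1 := hk x
    have h2 := hl x
    have h3 : (x.length + 2) ^ k ≤ (x.length + 2) ^ max k l := pow_mono_exp (le_max_left _ _)
    have h4 : (x.length + 2) ^ l ≤ (x.length + 2) ^ max k l := pow_mono_exp (le_max_right _ _)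
    have h5 : (x.length + 2) ^ (max k l + 2) =
        (x.length + 2) ^ max k l * ((x.length + 2) * (x.length + 2)) := by ring
    have h6 : (x.length + 2) ^ max k l * 4 ≤
        (x.length + 2) ^ max k l * ((x.length + 2) * (x.length + 2)) :=
      Nat.mul_le_mul_left _ (by nlinarith)
    have h7 : 1 ≤ (x.length + 2) ^ max k l := Nat.one_le_pow _ _ (by omega)
    omega
  | @iter f g h _ _ _ p hp _ _ _ =>
    obtain ⟨k, hk⟩ := exists_pow_bound p
    exact ⟨k, fun x => (hp x _ le_rfl).trans (hk _)⟩

theorem FPO.length_le {f : List Bool → List Bool} (hf : FPO O f) :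
    ∃ p : Polynomial ℕ, ∀ x, (f x).length ≤ p.eval x.length := by
  obtain ⟨k, hk⟩ := hf.length_pow
  exact ⟨(Polynomial.X + 2) ^ k, fun x => by rw [pow_bound_eval]; exact hk x⟩

/-- Relative to a trivial oracle nothing changes. -/
theorem fpo_empty_iff {f : List Bool → List Bool} : FPO ∅ f ↔ FP f := by
  constructor
  · intro h
    induction h with
    | base hf => exact hf
    | oracle => exact (FP.const [false]).congr (fun x => by simp)
    | comp _ _ ihg ihf => exact ihg.comp ihf
    | pair _ _ ihf ihg => exact ihf.pair ihg
    | iter _ _ _ p hp ihf ihg ihh => exact ihf.iter ihg ihh p hp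
  · exact FPO.base

end Pool.Agent.Helper86.Rel
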