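import Pool.Agent.Helper86.Rel.Typed

/-!
Relativised copy of the corresponding file of `Pool.Agent.PolyTime`.
-/

namespace Pool.Agent.Helper86.Rel

open Pool.Agent.PolyTime

variable {O : Set (List Bool)}

/-!
Polynomial-time functions on options, sums and lists.
-/

set_option linter.dupNamespace false

section

variable {α β γ δ σ : Type} [PEnc α] [PEnc β] [PEnc γ] [PEnc δ] [PEnc σ]

/-- two functions with the same encodings -/
protected theorem PTO.of_enc {f : α → β} {g : α → γ} (hg : PTO O g)
    (h : ∀ a, enc (f a) = enc (g a)) : PTO O f := by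
  obtain ⟨G, hG, hG'⟩ := hg
  exact ⟨G, hG, fun a => by rw [hG', h]⟩

@[fun_prop]
protected theorem PTO.subtype_val {p : β → Prop} : PTO O (fun a : Subtype p => (a : β)) :=
  ⟨fun x => x, FPO.id, fun _ => rfl⟩

protected theorem PTO.subtype_mk {p : β → Prop} {f : α → β} (hf : PTO O f) (h : ∀ a, p (f a)) :
    PTO O (fun a => (⟨f a, h a⟩ : Subtype p)) :=
  PTO.of_enc hf (fun _ => rfl)

@[fun_prop]
protected theorem PTO.fin_val {n : ℕ} : PTO O (fun a : Fin n => (a : ℕ)) :=
  ⟨fun x => x, FPO.id, fun _ => rfl⟩

/-! ### options -/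

@[fun_prop]
protected theorem PTO.some {f : α → β} (hf : PTO O f) : PTO O (fun a => Option.some (f a)) := by
  obtain ⟨F, hF, hF'⟩ := hf
  exact ⟨fun x => true :: F x, FPO.cons' true hF, fun a => by beta_reduce; rw [hF']; rfl⟩

protected theorem PTO.option_casesOn {o : α → Option β} {f : α → γ} {g : α → β → γ}
    (ho : PTO O o) (hf : PTO O f) (hg : PTO O (fun p : α × β => g p.1 p.2)) :
    PTO O (fun a => Option.casesOn (motive := fun _ => γ) (o a) (f a) (g a)) := by
  obtain ⟨O, hO, hO'⟩ := ho
  obtain ⟨F, hF, hF'⟩ := hf
  obtain ⟨G, hG, hG'⟩ := hg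
  refine ⟨fun x => if O x = [] then F x else G (pr x (O x).tail),
    FPO.ite_nil hO hF (hG.comp (FPO.pair FPO.id (FPO.tail' hO))), fun a => ?_⟩
  beta_reduce
  rw [hO']
  cases h : o a with
  | none => simp [enc_none, hF']
  | some b =>
    simp only [enc_some, List.tail_cons]
    exact hG' (a, b)

@[fun_prop]
protected theorem PTO.option_elim {o : α → Option β} {f : α → γ} {g : α → β → γ}
    (ho : PTO O o) (hf : PTO O f) (hg : PTO O (fun p : α × β => g p.1 p.2)) :
    PTO O (fun a => (o a).elim (f a) (g a)) :=
  (PTO.option_casesOn ho hf hg).congr (fun a => by cases o a <;> rfl)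

@[fun_prop]
protected theorem PTO.option_getD {o : α → Option β} {f : α → β} (ho : PTO O o) (hf : PTO O f) :
    PTO O (fun a => (o a).getD (f a)) :=
  (PTO.option_casesOn (g := fun _ b => b) ho hf PTO.snd').congr
    (fun a => by cases o a <;> rfl)

@[fun_prop]
protected theorem PTO.option_map {o : α → Option β} {g : α → β → γ} (ho : PTO O o)
    (hg : PTO O (fun p : α × β => g p.1 p.2)) : PTO O (fun a => (o a).map (g a)) :=
  (PTO.option_casesOn (g := fun a b => Option.some (g a b)) ho (PTO.const none)
    (PTO.some hg)).congr (fun a => by cases o a <;> rfl)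

@[fun_prop]
protected theorem PTO.option_bind {o : α → Option β} {g : α → β → Option γ} (ho : PTO O o)
    (hg : PTO O (fun p : α × β => g p.1 p.2)) : PTO O (fun a => (o a).bind (g a)) :=
  (PTO.option_casesOn ho (PTO.const none) hg).congr (fun a => by cases o a <;> rfl)

@[fun_prop]
protected theorem PTO.option_isSome {o : α → Option β} (ho : PTO O o) :
    PTO O (fun a => (o a).isSome) :=
  (PTO.option_casesOn (g := fun _ _ => true) ho (PTO.const false)
    (PTO.const true)).congr (fun a => by cases o a <;> rfl)

@[fun_prop]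
protected theorem PTO.option_isNone {o : α → Option β} (ho : PTO O o) :
    PTO O (fun a => (o a).isNone) :=
  (PTO.option_casesOn (g := fun _ _ => false) ho (PTO.const true)
    (PTO.const false)).congr (fun a => by cases o a <;> rfl)

/-! ### sums -/

@[fun_prop]
protected theorem PTO.inl {f : α → β} (hf : PTO O f) :
    PTO O (fun a => (Sum.inl (f a) : β ⊕ γ)) := by
  obtain ⟨F, hF, hF'⟩ := hf
  exact ⟨fun x => false :: F x, FPO.cons' false hF, fun a => by beta_reduce; rw [hF']; rfl⟩

@[fun_prop]
protected theorem PTO.inr {f : α → γ} (hf : PTO O f) :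
    PTO O (fun a => (Sum.inr (f a) : β ⊕ γ)) := by
  obtain ⟨F, hF, hF'⟩ := hf
  exact ⟨fun x => true :: F x, FPO.cons' true hF, fun a => by beta_reduce; rw [hF']; rfl⟩

protected theorem PTO.sum_casesOn {o : α → β ⊕ γ} {f : α → β → δ} {g : α → γ → δ}
    (ho : PTO O o) (hf : PTO O (fun p : α × β => f p.1 p.2))
    (hg : PTO O (fun p : α × γ => g p.1 p.2)) :
    PTO O (fun a => Sum.casesOn (motive := fun _ => δ) (o a) (f a) (g a)) := by
  obtain ⟨O, hO, hO'⟩ := ho
  obtain ⟨F, hF, hF'⟩ := hf
  obtain ⟨G, hG, hG'⟩ := hg
  refine ⟨_, FPO.cases hO (hF.comp (FPO.pair FPO.id (FPO.tail' hO)))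
    (hF.comp (FPO.pair FPO.id (FPO.tail' hO))) (hG.comp (FPO.pair FPO.id (FPO.tail' hO))),
    fun a => ?_⟩
  beta_reduce
  rw [hO']
  cases h : o a with
  | inl b =>
    simp only [enc_inl, List.tail_cons]
    exact hF' (a, b)
  | inr b =>
    simp only [enc_inr, List.tail_cons]
    exact hG' (a, b)

@[fun_prop]
protected theorem PTO.sum_elim {o : α → β ⊕ γ} {f : α → β → δ} {g : α → γ → δ}
    (ho : PTO O o) (hf : PTO O (fun p : α × β => f p.1 p.2))
    (hg : PTO O (fun p : α × γ => g p.1 p.2)) :
    PTO O (fun a => Sum.elim (f a) (g a) (o a)) :=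
  (PTO.sum_casesOn ho hf hg).congr (fun a => by cases o a <;> rfl)

/-! ### lists -/

@[fun_prop]
protected theorem PTO.cons {f : α → β} {l : α → List β} (hf : PTO O f) (hl : PTO O l) :
    PTO O (fun a => f a :: l a) :=
  PTO.of_enc (hf.prodMk hl) (fun _ => rfl)

protected theorem PTO.list_casesOn {l : α → List β} {f : α → γ} {g : α → β → List β → γ}
    (hl : PTO O l) (hf : PTO O f)
    (hg : PTO O (fun p : α × β × List β => g p.1 p.2.1 p.2.2)) :
    PTO O (fun a => List.casesOn (motive := fun _ => γ) (l a) (f a) (g a)) := by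
  obtain ⟨L, hL, hL'⟩ := hl
  obtain ⟨F, hF, hF'⟩ := hf
  obtain ⟨G, hG, hG'⟩ := hg
  refine ⟨fun x => if L x = [] then F x else G (pr x (pr (p1 (L x)) (p2 (L x)))),
    FPO.ite_nil hL hF (hG.comp (FPO.pair FPO.id (FPO.pair (FPO.p1' hL) (FPO.p2' hL)))), fun a => ?_⟩
  beta_reduce
  rw [hL']
  cases h : l a with
  | nil => simp [enc_nil, hF']
  | cons b t =>
    simp only [enc_cons, pr_ne_nil, if_false, p1_pr, p2_pr]
    exact hG' (a, b, t)

@[fun_prop]
protected theorem PTO.tail {l : α → List β} (hl : PTO O l) : PTO O (fun a => (l a).tail) :=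
  (PTO.list_casesOn (g := fun _ _ t => t) hl (PTO.const [])
    (by fun_prop)).congr (fun a => by cases l a <;> rfl)

@[fun_prop]
protected theorem PTO.head? {l : α → List β} (hl : PTO O l) : PTO O (fun a => (l a).head?) :=
  (PTO.list_casesOn (g := fun _ b _ => Option.some b) hl (PTO.const none)
    (by fun_prop)).congr (fun a => by cases l a <;> rfl)

@[fun_prop]
protected theorem PTO.headD {l : α → List β} {d : α → β} (hl : PTO O l) (hd : PTO O d) :
    PTO O (fun a => (l a).headD (d a)) :=
  (PTO.list_casesOn (g := fun _ b _ => b) hl hd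
    (by fun_prop)).congr (fun a => by cases l a <;> rfl)

@[fun_prop]
protected theorem PTO.isEmpty {l : α → List β} (hl : PTO O l) :
    PTO O (fun a => (l a).isEmpty) :=
  (PTO.list_casesOn (g := fun _ _ _ => false) hl (PTO.const true)
    (by fun_prop)).congr (fun a => by cases l a <;> rfl)

@[fun_prop]
protected theorem PTO.append {l m : α → List β} (hl : PTO O l) (hm : PTO O m) :
    PTO O (fun a => l a ++ m a) := by
  obtain ⟨L, hL, hL'⟩ := hl
  obtain ⟨M, hM, hM'⟩ := hm
  refine ⟨fun x => L x ++ M x, FPO.append hL hM, fun a => ?_⟩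
  beta_reduce
  rw [hL', hM']
  induction l a with
  | nil => rfl
  | cons b t ih =>
    have h : ∀ u v w : List Bool, pr u (v ++ w) = pr u v ++ w := by
      intro u v w
      simp [pr]
    rw [List.cons_append, enc_cons, enc_cons, ← ih, h]

/-- folds with polynomially bounded intermediate results -/
protected theorem PTO.foldl {l : α → List β} {s : α → σ} {h : α → σ → β → σ} (hl : PTO O l)
    (hs : PTO O s) (hh : PTO O (fun q : α × σ × β => h q.1 q.2.1 q.2.2)) {B : α → ℕ}
    (hB : PBd B) (hb : ∀ a i, size (((l a).take i).foldl (h a) (s a)) ≤ B a) :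
    PTO O (fun a => (l a).foldl (h a) (s a)) := by
  have hstep : PTO O (foldStep h) := by
    unfold Pool.Agent.PolyTime.foldStep
    refine PTO.list_casesOn (by fun_prop) PTO.id ?_
    refine PTO.prodMk (by fun_prop) (PTO.prodMk (by fun_prop) ?_)
    exact hh.comp (f := fun p : (α × List β × σ) × β × List β => (p.1.1, p.1.2.2, p.2.1))
      (by fun_prop)
  have h1 : PTO O (fun a => (foldStep h)^[size (l a)] (a, l a, s a)) := by
    refine PTO.iterate_size (b := fun a => 2 * size a + 1 + (2 * size (l a) + 1 + B a))
      hstep (by fun_prop) hl ?_ ?_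
    · exact (((PBd.const 2).mul PBd.size).add (PBd.const 1)).add
        ((((PBd.const 2).mul hl.pbd).add (PBd.const 1)).add hB)
    · intro a i _
      rw [foldStep_iter, size_pair, size_pair]
      have h2 := hb a i
      have h3 : size ((l a).drop i) ≤ size (l a) := size_sublist (List.drop_sublist _ _)
      omega
  refine h1.snd.snd.congr (fun a => ?_)
  rw [foldStep_iter]
  simp only
  rw [List.take_of_length_le (length_le_size _)]

@[fun_prop]
protected theorem PTO.reverse {l : α → List β} (hl : PTO O l) :
    PTO O (fun a => (l a).reverse) := by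
  have key : ∀ (m : List β) (acc : List β), m.foldl (fun acc b => b :: acc) acc
      = m.reverse ++ acc := by
    intro m
    induction m with
    | nil => intro acc; rfl
    | cons b m ih => intro acc; rw [List.foldl_cons, ih]; simp
  have hsz : ∀ m : List β, size m.reverse = size m := by
    intro m
    rw [size_list_eq_sum, size_list_eq_sum, List.map_reverse, List.sum_reverse]
  refine (PTO.foldl (h := fun _ acc b => b :: acc) (s := fun _ => []) hl
    (PTO.const []) (by fun_prop) hl.pbd ?_).congr (fun a => ?_)
  · intro a i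
    rw [key, List.append_nil, hsz]
    exact size_sublist (List.take_sublist _ _)
  · rw [key, List.append_nil]

protected theorem PTO.foldr {l : α → List β} {s : α → σ} {h : α → β → σ → σ} (hl : PTO O l)
    (hs : PTO O s) (hh : PTO O (fun q : α × β × σ => h q.1 q.2.1 q.2.2)) {B : α → ℕ}
    (hB : PBd B) (hb : ∀ a i, size (((l a).drop i).foldr (h a) (s a)) ≤ B a) :
    PTO O (fun a => (l a).foldr (h a) (s a)) := by
  refine (PTO.foldl (h := fun a s b => h a b s) hl.reverse hs
    (hh.comp (f := fun q : α × σ × β => (q.1, q.2.2, q.2.1)) (by fun_prop)) hB ?_).congr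
    (fun a => by rw [List.foldl_reverse])
  intro a i
  rw [List.take_reverse, List.foldl_reverse]
  exact hb a _

/-- bound for the size of the values of a polynomial-time function of two arguments, when the
second argument ranges over the elements of a list -/
protected theorem PTO.pbd_mem {l : α → List β} {g : α → β → γ} (hl : PTO O l)
    (hg : PTO O (fun p : α × β => g p.1 p.2)) :
    ∃ B : α → ℕ, PBd B ∧ ∀ a, ∀ b ∈ l a, size (g a b) ≤ B a := by
  obtain ⟨k, hk⟩ := hg.pbd
  refine ⟨fun a => (2 * size a + 1 + size (l a) + 2) ^ k, ?_, ?_⟩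
  · exact (((((PBd.const 2).mul PBd.size).add (PBd.const 1)).add hl.pbd).add
      (PBd.const 2)).pow k
  · intro a b hb
    refine (hk (a, b)).trans (Nat.pow_le_pow_left ?_ _)
    rw [size_pair]
    have := size_mem_le hb
    omega

@[fun_prop]
protected theorem PTO.map {l : α → List β} {g : α → β → γ} (hl : PTO O l)
    (hg : PTO O (fun p : α × β => g p.1 p.2)) : PTO O (fun a => (l a).map (g a)) := by
  obtain ⟨B, hB, hB'⟩ := PTO.pbd_mem hl hg
  refine (PTO.foldr (s := fun _ => []) (h := fun a b acc => g a b :: acc) hl
    (PTO.const []) ?_ (B := fun a => size (l a) * (2 * B a + 1)) ?_ ?_).congr (fun a => ?_)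
  · refine PTO.cons ?_ (by fun_prop)
    exact hg.comp (f := fun q : α × β × List γ => (q.1, q.2.1)) (by fun_prop)
  · exact hl.pbd.mul (((PBd.const 2).mul hB).add (PBd.const 1))
  · intro a i
    have h1 : ∀ m : List β, m.foldr (fun b acc => g a b :: acc) [] = m.map (g a) := by
      intro m; induction m with
      | nil => rfl
      | cons b m ih => rw [List.foldr_cons, ih]; rfl
    rw [h1]
    refine (size_le_of_forall (B := B a) ?_).trans ?_
    · intro c hc
      obtain ⟨b, hb, rfl⟩ := List.mem_map.1 hc
      exact hB' a b (List.mem_of_mem_drop hb)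
    · refine Nat.mul_le_mul_right _ ?_
      rw [List.length_map, List.length_drop]
      have := length_le_size (l a)
      omega
  · induction l a with
    | nil => rfl
    | cons b m ih => rw [List.foldr_cons, ih]; rfl

@[fun_prop]
protected theorem PTO.flatten {l : α → List (List β)} (hl : PTO O l) :
    PTO O (fun a => (l a).flatten) := by
  refine (PTO.foldr (s := fun _ => []) (h := fun _ m acc => m ++ acc) hl
    (PTO.const []) (by fun_prop) hl.pbd ?_).congr (fun a => ?_)
  · intro a i
    have h1 : ∀ m : List (List β), m.foldr (fun b acc => b ++ acc) [] = m.flatten := by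
      intro m; induction m with
      | nil => rfl
      | cons b m ih => rw [List.foldr_cons, ih]; rfl
    rw [h1]
    exact (size_flatten_le _).trans (size_sublist (List.drop_sublist _ _))
  · induction l a with
    | nil => rfl
    | cons b m ih => rw [List.foldr_cons, ih]; rfl

@[fun_prop]
protected theorem PTO.flatMap {l : α → List β} {g : α → β → List γ} (hl : PTO O l)
    (hg : PTO O (fun p : α × β => g p.1 p.2)) : PTO O (fun a => (l a).flatMap (g a)) :=
  (PTO.flatten (PTO.map hl hg)).congr (fun a => by rw [List.flatMap_def])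

@[fun_prop]
protected theorem PTO.filter {l : α → List β} {p : α → β → Bool} (hl : PTO O l)
    (hp : PTO O (fun q : α × β => p q.1 q.2)) : PTO O (fun a => (l a).filter (p a)) := by
  refine (PTO.flatMap (g := fun a b => bif p a b then [b] else []) hl ?_).congr
    (fun a => ?_)
  · exact PTO.cond hp (by fun_prop) (by fun_prop)
  · induction l a with
    | nil => rfl
    | cons b m ih =>
      rw [List.flatMap_cons, ih]
      by_cases h : p a b <;> simp [h]

@[fun_prop]
protected theorem PTO.filterMap {l : α → List β} {p : α → β → Option γ} (hl : PTO O l)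
    (hp : PTO O (fun q : α × β => p q.1 q.2)) : PTO O (fun a => (l a).filterMap (p a)) := by
  refine (PTO.flatMap (g := fun a b => (p a b).elim [] (fun c => [c])) hl ?_).congr
    (fun a => ?_)
  · exact PTO.option_elim hp (by fun_prop) (by fun_prop)
  · induction l a with
    | nil => rfl
    | cons b m ih =>
      rw [List.flatMap_cons, ih]
      cases h : p a b <;> simp [h]

@[fun_prop]
protected theorem PTO.all {l : α → List β} {p : α → β → Bool} (hl : PTO O l)
    (hp : PTO O (fun q : α × β => p q.1 q.2)) : PTO O (fun a => (l a).all (p a)) := by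
  refine ((hl.filter (p := fun a b => !(p a b)) hp.not).isEmpty).congr (fun a => ?_)
  induction l a with
  | nil => rfl
  | cons b m ih =>
    by_cases h : p a b <;> simp_all

@[fun_prop]
protected theorem PTO.any {l : α → List β} {p : α → β → Bool} (hl : PTO O l)
    (hp : PTO O (fun q : α × β => p q.1 q.2)) : PTO O (fun a => (l a).any (p a)) := by
  refine ((hl.filter hp).isEmpty.not).congr (fun a => ?_)
  induction l a with
  | nil => rfl
  | cons b m ih =>
    by_cases h : p a b <;> simp_all

@[fun_prop]
protected theorem PTO.find? {l : α → List β} {p : α → β → Bool} (hl : PTO O l)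
    (hp : PTO O (fun q : α × β => p q.1 q.2)) : PTO O (fun a => (l a).find? (p a)) := by
  refine ((hl.filter hp).head?).congr (fun a => ?_)
  rw [List.head?_filter]

@[fun_prop]
protected theorem PTO.decide_mem [DecidableEq β] {f : α → β} {l : α → List β} (hf : PTO O f)
    (hl : PTO O l) : PTO O (fun a => decide (f a ∈ l a)) := by
  refine (hl.any (p := fun a b => decide (f a = b)) ?_).congr (fun a => ?_)
  · exact PTO.decideEq (hf.comp PTO.fst') PTO.snd'
  · rw [Bool.eq_iff_iff]
    simp [List.any_eq_true]

@[fun_prop]
protected theorem PTO.zip {l : α → List β} {m : α → List γ} (hl : PTO O l) (hm : PTO O m) :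
    PTO O (fun a => (l a).zip (m a)) := by
  let h : α → (List γ × List (β × γ)) → β → (List γ × List (β × γ)) := fun _ s b =>
    List.casesOn (motive := fun _ => List γ × List (β × γ)) s.1 s (fun c t => (t, (b, c) :: s.2))
  have key : ∀ a (l : List β) (m : List γ) (acc : List (β × γ)),
      l.foldl (h a) (m, acc) = (m.drop l.length, (l.zip m).reverse ++ acc) := by
    intro a l
    induction l with
    | nil => intro m acc; simp
    | cons b l ih =>
      intro m acc
      cases m with
      | nil =>
        rw [List.foldl_cons]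
        have : h a ([], acc) b = ([], acc) := rfl
        rw [this, ih]
        simp
      | cons c m =>
        rw [List.foldl_cons]
        have : h a (c :: m, acc) b = (m, (b, c) :: acc) := rfl
        rw [this, ih]
        simp
  have hsz : ∀ (l : List β) (m : List γ), size (l.zip m) ≤ 4 * size l + size m * 2 + 0 + l.length * 3 := by
    intro l
    induction l with
    | nil => intro m; simp
    | cons b l ih =>
      intro m
      cases m with
      | nil => simp
      | cons c m =>
        rw [List.zip_cons_cons, size_cons, size_pair, size_cons, size_cons, List.length_cons]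
        have := ih m
        omega
  have h1 : PTO O (fun a => (l a).foldl (h a) (m a, [])) := by
    refine PTO.foldl (B := fun a => 2 * size (m a) + 1 +
      (4 * size (l a) + size (m a) * 2 + 0 + size (l a) * 3)) hl (by fun_prop) ?_ ?_ ?_
    · refine PTO.list_casesOn (by fun_prop) (by fun_prop) ?_
      fun_prop
    · exact (((PBd.const 2).mul hm.pbd).add (PBd.const 1)).add
        (((((PBd.const 4).mul hl.pbd).add (hm.pbd.mul (PBd.const 2))).add (PBd.const 0)).add
          (hl.pbd.mul (PBd.const 3)))
    · intro a i
      rw [key a, size_pair, List.append_nil, size_reverse]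
      have h2 := hsz ((l a).take i) (m a)
      have h3 : size ((l a).take i) ≤ size (l a) := size_sublist (List.take_sublist _ _)
      have h4 : size ((m a).drop ((l a).take i).length) ≤ size (m a) :=
        size_sublist (List.drop_sublist _ _)
      have h5 := length_le_size ((l a).take i)
      omega
  refine h1.snd.reverse.congr (fun a => ?_)
  rw [key a]
  simp

@[fun_prop]
protected theorem PTO.zipWith {l : α → List β} {m : α → List γ} {f : α → β → γ → δ}
    (hl : PTO O l) (hm : PTO O m)
    (hf : PTO O (fun q : α × β × γ => f q.1 q.2.1 q.2.2)) :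
    PTO O (fun a => List.zipWith (f a) (l a) (m a)) := by
  refine ((hl.zip hm).map (g := fun a p => f a p.1 p.2) ?_).congr (fun a => ?_)
  · exact hf.comp (f := fun p : α × β × γ => (p.1, p.2.1, p.2.2)) (by fun_prop)
  · rw [List.zip_eq_zipWith, List.map_zipWith]

/-- cartesian product -/
@[fun_prop]
protected theorem PTO.product {l : α → List β} {m : α → List γ} (hl : PTO O l) (hm : PTO O m) :
    PTO O (fun a => (l a).product (m a)) := by
  refine (hl.flatMap (g := fun a b => (m a).map (fun c => (b, c))) ?_).congr (fun a => rfl)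
  exact PTO.map (l := fun p : α × β => m p.1) (g := fun p c => (p.2, c))
    (by fun_prop) (by fun_prop)

end

end Pool.Agent.Helper86.Rel
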