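import Pool.Agent.Helper86.Rel.Nat

/-!
Relativised copy of the corresponding file of `Pool.Agent.PolyTime`.
-/

namespace Pool.Agent.Helper86.Rel

open Pool.Agent.PolyTime

variable {O : Set (List Bool)}

/-!
More polynomial-time functions: bounded iteration with a numeric counter, `List.range`, lengths,
sums, indexing, powers, gcd.
-/

set_option linter.dupNamespace false

section

variable {α β γ δ σ : Type} [PEnc α] [PEnc β] [PEnc γ] [PEnc δ] [PEnc σ]

/-- a unary string of length `(size a + 2) ^ k` -/
protected theorem PTO.unaryPad (k : ℕ) :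
    PTO O (fun a : α => List.replicate ((size a + 2) ^ k) ()) := by
  refine ⟨fun x => (fun x => false :: x)^[(pad k x).length] [], ?_, fun a => ?_⟩
  · refine FPO.iterPB (FPO.cons false) (FPO.pad k) FPO.nil (FPO.pad (O := O) k).pb ?_
    intro x i hi
    rw [iterate_cons_false]
    simpa using hi
  · beta_reduce
    rw [iterate_cons_false, enc_replicate_unit, length_pad, List.append_nil]
    rfl

/-- iteration of `f a` exactly `n a` times, where `n a` is computed in binary and is
polynomially bounded -/
protected theorem PTO.iterate {f : α → β → β} {n : α → ℕ} {g : α → β}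
    (hf : PTO O (fun p : α × β => f p.1 p.2)) (hn : PTO O n) (hnb : PBd n)
    (hg : PTO O g) {B : α → ℕ} (hB : PBd B)
    (h : ∀ a, ∀ i ≤ n a, size ((f a)^[i] (g a)) ≤ B a) :
    PTO O (fun a => (f a)^[n a] (g a)) := by
  obtain ⟨k, hk⟩ := hnb
  let step : α → ℕ × β → Unit → ℕ × β := fun a s _ =>
    bif decide (s.1 = 0) then s else (s.1 - 1, f a s.2)
  have key : ∀ a i, (List.replicate i ()).foldl (step a) (n a, g a) =
      (n a - i, (f a)^[min i (n a)] (g a)) := by
    intro a i
    induction i with
    | zero => simp
    | succ i ih =>
      rw [List.replicate_succ', List.foldl_append, ih, List.foldl_cons, List.foldl_nil]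
      by_cases h : n a ≤ i
      · have h1 : n a - i = 0 := by omega
        have h2 : n a - (i + 1) = 0 := by omega
        have h3 : min i (n a) = n a := by omega
        have h4 : min (i + 1) (n a) = n a := by omega
        simp only [step, h1, h2, h3, h4]
        simp
      · have h1 : n a - i ≠ 0 := by omega
        have h3 : min i (n a) = i := by omega
        have h4 : min (i + 1) (n a) = i + 1 := by omega
        simp only [step, h3, h4, h1, decide_false, cond_false]
        rw [Function.iterate_succ_apply' (f a)]
        congr 1
  have h1 : PTO O (fun a => (List.replicate ((size a + 2) ^ k) ()).foldl (step a)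
      (n a, g a)) := by
    refine PTO.foldl (PTO.unaryPad k) (by fun_prop) ?_
      (B := fun a => 2 * size (n a) + 1 + B a)
      ((((PBd.const 2).mul hn.pbd).add (PBd.const 1)).add hB) ?_
    · have : PTO O (fun q : α × (ℕ × β) × Unit => f q.1 q.2.1.2) :=
        hf.comp (f := fun q : α × (ℕ × β) × Unit => (q.1, q.2.1.2)) (by fun_prop)
      simp only [step]
      fun_prop
    · intro a i
      rw [List.take_replicate, key, size_pair]
      have h2 := h a (min (min i ((size a + 2) ^ k)) (n a)) (by omega)
      have h3 := size_nat_mono (Nat.sub_le (n a) (min i ((size a + 2) ^ k)))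
      omega
  refine h1.snd.congr (fun a => ?_)
  rw [key]
  have := hk a
  simp only
  rw [min_eq_right this]

@[fun_prop]
protected theorem PTO.length {l : α → List β} (hl : PTO O l) :
    PTO O (fun a => (l a).length) := by
  have key : ∀ (m : List β) (n : ℕ), m.foldl (fun n _ => n + 1) n = n + m.length := by
    intro m
    induction m with
    | nil => intro n; rfl
    | cons b m ih => intro n; rw [List.foldl_cons, ih, List.length_cons]; omega
  refine (PTO.foldl (s := fun _ => 0) (h := fun _ n _ => n + 1) hl (PTO.const 0)
    (by fun_prop) hl.pbd ?_).congr (fun a => by rw [key]; omega)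
  intro a i
  rw [key]
  refine (size_nat_self _).trans ?_
  have := length_le_size (l a)
  rw [List.length_take]
  omega

theorem pbd_length {l : α → List β} (hl : PTO O l) : PBd (fun a => (l a).length) :=
  hl.pbd.mono (fun _ => length_le_size _)

protected theorem PTO.range {n : α → ℕ} (hn : PTO O n) (hb : PBd n) :
    PTO O (fun a => List.range (n a)) := by
  have key : ∀ m i : ℕ, i ≤ m → (fun s : ℕ × List ℕ => (s.1 - 1, (s.1 - 1) :: s.2))^[i] (m, []) =
      (m - i, (List.range i).map (fun j => m - i + j)) := by
    intro m i
    induction i with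
    | zero => intro _; rfl
    | succ i ih =>
      intro hi
      rw [Function.iterate_succ_apply', ih (by omega), List.range_succ_eq_map, List.map_cons,
        List.map_map]
      ext1
      · show m - i - 1 = m - (i + 1)
        omega
      · show (m - i - 1) :: List.map (fun j => m - i + j) (List.range i) = _
        have h1 : m - i - 1 = m - (i + 1) + 0 := by omega
        rw [h1]
        congr 1
        apply List.map_congr_left
        intro j _
        simp only [Function.comp]
        omega
  have h1 : PTO O (fun a => (fun s : ℕ × List ℕ => (s.1 - 1, (s.1 - 1) :: s.2))^[n a]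
      (n a, [])) := by
    refine PTO.iterate (f := fun _ s => (s.1 - 1, (s.1 - 1) :: s.2))
      (B := fun a => 2 * n a + 1 + n a * (2 * n a + 1)) (by fun_prop) hn hb
      (by fun_prop) ?_ ?_
    · exact (((PBd.const 2).mul hb).add (PBd.const 1)).add
        (hb.mul (((PBd.const 2).mul hb).add (PBd.const 1)))
    · intro a i hi
      rw [key _ _ hi, size_pair]
      have h2 : size (n a - i) ≤ n a := (size_nat_self _).trans (by omega)
      have h3 : size ((List.range i).map (fun j => n a - i + j)) ≤ n a * (2 * n a + 1) := by
        refine (size_le_of_forall (B := n a) ?_).trans ?_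
        · intro x hx
          obtain ⟨j, hj, rfl⟩ := List.mem_map.1 hx
          have := List.mem_range.1 hj
          exact (size_nat_self _).trans (by omega)
        · rw [List.length_map, List.length_range]
          exact Nat.mul_le_mul_right _ hi
      omega
  refine h1.snd.congr (fun a => ?_)
  rw [key _ _ le_rfl]
  simp

protected theorem PTO.replicate {n : α → ℕ} {f : α → β} (hn : PTO O n) (hb : PBd n)
    (hf : PTO O f) : PTO O (fun a => List.replicate (n a) (f a)) := by
  refine ((PTO.range hn hb).map (g := fun a _ => f a) (by fun_prop)).congr (fun a => ?_)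
  rw [List.map_const', List.length_range]

@[fun_prop]
protected theorem PTO.range_length {l : α → List β} (hl : PTO O l) :
    PTO O (fun a => List.range (l a).length) :=
  PTO.range hl.length (pbd_length hl)

@[fun_prop]
protected theorem PTO.zipIdx {l : α → List β} (hl : PTO O l) :
    PTO O (fun a => (l a).zipIdx) := by
  refine (hl.zip hl.range_length).congr (fun a => ?_)
  rw [List.zipIdx_eq_zip_range', List.range_eq_range']

/-- primitive recursion on a polynomially bounded counter -/
protected theorem PTO.foldRange {n : α → ℕ} {s : α → σ} {h : α → σ → ℕ → σ} (hn : PTO O n)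
    (hnb : PBd n) (hs : PTO O s) (hh : PTO O (fun q : α × σ × ℕ => h q.1 q.2.1 q.2.2))
    {B : α → ℕ} (hB : PBd B)
    (hb : ∀ a, ∀ i ≤ n a, size ((List.range i).foldl (h a) (s a)) ≤ B a) :
    PTO O (fun a => (List.range (n a)).foldl (h a) (s a)) := by
  refine PTO.foldl (PTO.range hn hnb) hs hh hB (fun a i => ?_)
  rw [List.take_range]
  exact hb a _ (min_le_right _ _)

@[fun_prop]
protected theorem PTO.drop {n : α → ℕ} {l : α → List β} (hn : PTO O n) (hl : PTO O l) :
    PTO O (fun a => (l a).drop (n a)) := by
  have h1 : PTO O (fun a => List.tail^[min (n a) (l a).length] (l a)) := by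
    refine PTO.iterate (f := fun _ s => s.tail) (B := fun a => size (l a))
      (n := fun a => min (n a) (l a).length) (by fun_prop) (by fun_prop) ((pbd_length hl).mono (fun _ => min_le_right _ _)) hl hl.pbd ?_
    intro a i _
    have : ∀ (i : ℕ) (m : List β), List.tail^[i] m = m.drop i := by
      intro i
      induction i with
      | zero => intro m; rfl
      | succ i ih => intro m; rw [Function.iterate_succ_apply, ih, List.drop_tail]
    rw [this]
    exact size_sublist (List.drop_sublist _ _)
  refine h1.congr (fun a => ?_)
  have : ∀ (i : ℕ) (m : List β), List.tail^[i] m = m.drop i := by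
    intro i
    induction i with
    | zero => intro m; rfl
    | succ i ih => intro m; rw [Function.iterate_succ_apply, ih, List.drop_tail]
  rw [this]
  by_cases h : n a ≤ (l a).length
  · rw [min_eq_left h]
  · rw [min_eq_right (by omega), List.drop_length, List.drop_eq_nil_of_le (by omega)]

@[fun_prop]
protected theorem PTO.take {n : α → ℕ} {l : α → List β} (hn : PTO O n) (hl : PTO O l) :
    PTO O (fun a => (l a).take (n a)) := by
  refine (PTO.reverse (PTO.drop (n := fun a => (l a).length - n a)
    (l := fun a => (l a).reverse) (by fun_prop) (by fun_prop))).congr (fun a => ?_)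
  rw [← List.length_reverse, ← List.take_reverse]
  simp

@[fun_prop]
protected theorem PTO.getElem? {n : α → ℕ} {l : α → List β} (hn : PTO O n) (hl : PTO O l) :
    PTO O (fun a => (l a)[n a]?) :=
  (PTO.head? (hn.drop hl)).congr (fun a => by rw [List.head?_drop])

@[fun_prop]
protected theorem PTO.getD {n : α → ℕ} {l : α → List β} {d : α → β} (hl : PTO O l)
    (hn : PTO O n) (hd : PTO O d) : PTO O (fun a => (l a).getD (n a) (d a)) :=
  (PTO.option_getD (PTO.getElem? hn hl) hd).congr (fun a => by
    rw [List.getD_eq_getElem?_getD])

@[fun_prop]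
protected theorem PTO.sum {l : α → List ℕ} (hl : PTO O l) : PTO O (fun a => (l a).sum) := by
  refine (PTO.foldr (s := fun _ => 0) (h := fun _ m n => m + n) hl (PTO.const 0)
    (by fun_prop) hl.pbd ?_).congr (fun a => rfl)
  intro a i
  exact (size_sum_le _).trans (size_sublist (List.drop_sublist _ _))

protected theorem PTO.pow {f n : α → ℕ} (hf : PTO O f) (hn : PTO O n) (hb : PBd n) :
    PTO O (fun a => f a ^ n a) := by
  have key : ∀ (x i : ℕ), (fun s => s * x)^[i] 1 = x ^ i := by
    intro x i
    induction i with
    | zero => rfl
    | succ i ih => rw [Function.iterate_succ_apply', ih, pow_succ]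
  refine (PTO.iterate (f := fun a s => s * f a) (B := fun a => n a * size (f a) + 1)
    (by fun_prop) hn hb (PTO.const 1) ((hb.mul hf.pbd).add (PBd.const 1)) ?_).congr
    (fun a => key _ _)
  intro a i hi
  rw [key]
  refine (size_pow_le _ _).trans ?_
  have := Nat.mul_le_mul_right (size (f a)) hi
  omega

@[fun_prop]
protected theorem PTO.pow_const {f : α → ℕ} (hf : PTO O f) (k : ℕ) :
    PTO O (fun a => f a ^ k) := hf.pow (PTO.const k) (PBd.const k)

@[fun_prop]
protected theorem PTO.natSize {f : α → ℕ} (hf : PTO O f) : PTO O (fun a => Nat.size (f a)) :=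
  hf.bits.length.congr (fun a => by rw [Nat.size_eq_bits_len])

@[fun_prop]
protected theorem PTO.natSizeOf {f : α → β} (hf : PTO O f) :
    PTO O (fun a => size (f a)) := by
  have h : PTO O (fun b : β => size b) := by
    have h1 : PTO O (fun b : β => (fun n : ℕ => n + 1)^[size b] 0) := by
      refine PTO.iterate_size (c := fun b : β => b) (b := fun b => size b) (by fun_prop)
        (by fun_prop) PTO.id PBd.size ?_
      intro b i hi
      have : ∀ i : ℕ, (fun n : ℕ => n + 1)^[i] 0 = i := by
        intro i; induction i with
        | zero => rfl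
        | succ i ih => rw [Function.iterate_succ_apply', ih]
      rw [this]
      exact (size_nat_self i).trans hi
    refine h1.congr (fun b => ?_)
    induction size b with
    | zero => rfl
    | succ i ih => rw [Function.iterate_succ_apply', ih]
  exact h.comp hf

/-! ### gcd -/

theorem pt_gcdStep : PTO O gcdStep := by
  unfold gcdStep
  fun_prop

@[fun_prop]
protected theorem PTO.gcd {f g : α → ℕ} (hf : PTO O f) (hg : PTO O g) :
    PTO O (fun a => Nat.gcd (f a) (g a)) := by
  have key : ∀ i t, Nat.gcd (gcdStep^[i] t).1 (gcdStep^[i] t).2 = Nat.gcd t.1 t.2 ∧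
      max (gcdStep^[i] t).1 (gcdStep^[i] t).2 ≤ max t.1 t.2 := by
    intro i
    induction i with
    | zero => intro t; simp
    | succ i ih =>
      intro t
      rw [Function.iterate_succ_apply]
      exact ⟨(ih _).1.trans (gcdStep_inv t).1, (ih _).2.trans (gcdStep_inv t).2⟩
  have h1 : PTO O (fun a => gcdStep^[2 * size (g a)] (f a, g a)) := by
    refine PTO.iterate (f := fun _ s => gcdStep s)
      (B := fun a => 2 * size (max (f a) (g a)) + 1 + size (max (f a) (g a)))
      (pt_gcdStep.comp (by fun_prop)) (by fun_prop)
      ((PBd.const 2).mul hg.pbd) (by fun_prop) ?_ ?_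
    · exact (((PBd.const 2).mul (hf.max hg).pbd).add (PBd.const 1)).add (hf.max hg).pbd
    · intro a i _
      have h2 := (key i (f a, g a)).2
      change size (gcdStep^[i] (f a, g a)) ≤ _
      rw [size_prod]
      have h3 : size (gcdStep^[i] (f a, g a)).1 ≤ size (max (f a) (g a)) :=
        size_nat_mono ((le_max_left _ _).trans h2)
      have h4 : size (gcdStep^[i] (f a, g a)).2 ≤ size (max (f a) (g a)) :=
        size_nat_mono ((le_max_right _ _).trans h2)
      omega
  refine h1.fst.congr (fun a => ?_)
  have h2 := gcdStep_iter (size (g a)) (f a, g a)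
  have h3 : (f a, g a).2 / 2 ^ size (g a) = 0 := Nat.div_eq_of_lt (lt_two_pow_size _)
  rw [h3] at h2
  have h4 := (key (2 * size (g a)) (f a, g a)).1
  rw [Nat.le_zero.1 h2, Nat.gcd_zero_right] at h4
  exact h4

end

end Pool.Agent.Helper86.Rel
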