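import Pool.Agent.Helper86.Rel.Lists

/-!
Arithmetic on natural numbers, relative to an oracle.
-/

namespace Pool.Agent.Helper86.Rel

open Pool.Agent.PolyTime

variable {O : Set (List Bool)}

variable {α β γ δ : Type} [PEnc α] [PEnc β] [PEnc γ] [PEnc δ]

@[fun_prop]
protected theorem PTO.add {f g : α → ℕ} (hf : PTO O f) (hg : PTO O g) :
    PTO O (fun a => f a + g a) :=
  PTO.comp₂ (h := fun x y : ℕ => x + y) (PTO.of (by fun_prop)) hf hg

@[fun_prop]
protected theorem PTO.sub {f g : α → ℕ} (hf : PTO O f) (hg : PTO O g) :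
    PTO O (fun a => f a - g a) :=
  PTO.comp₂ (h := fun x y : ℕ => x - y) (PTO.of (by fun_prop)) hf hg

@[fun_prop]
protected theorem PTO.mul {f g : α → ℕ} (hf : PTO O f) (hg : PTO O g) :
    PTO O (fun a => f a * g a) :=
  PTO.comp₂ (h := fun x y : ℕ => x * y) (PTO.of (by fun_prop)) hf hg

@[fun_prop]
protected theorem PTO.min {f g : α → ℕ} (hf : PTO O f) (hg : PTO O g) :
    PTO O (fun a => Min.min (f a) (g a)) :=
  PTO.comp₂ (h := fun x y : ℕ => Min.min x y) (PTO.of (by fun_prop)) hf hg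

@[fun_prop]
protected theorem PTO.max {f g : α → ℕ} (hf : PTO O f) (hg : PTO O g) :
    PTO O (fun a => Max.max (f a) (g a)) :=
  PTO.comp₂ (h := fun x y : ℕ => Max.max x y) (PTO.of (by fun_prop)) hf hg

@[fun_prop]
protected theorem PTO.decide_lt {f g : α → ℕ} (hf : PTO O f) (hg : PTO O g) :
    PTO O (fun a => decide (f a < g a)) :=
  PTO.comp₂ (h := fun x y : ℕ => decide (x < y)) (PTO.of (by fun_prop)) hf hg

@[fun_prop]
protected theorem PTO.decide_le {f g : α → ℕ} (hf : PTO O f) (hg : PTO O g) :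
    PTO O (fun a => decide (f a ≤ g a)) :=
  PTO.comp₂ (h := fun x y : ℕ => decide (x ≤ y)) (PTO.of (by fun_prop)) hf hg

@[fun_prop]
protected theorem PTO.bits {f : α → ℕ} (hf : PTO O f) : PTO O (fun a => Nat.bits (f a)) :=
  PTO.comp (g := fun n : ℕ => Nat.bits n) (PTO.of (by fun_prop)) hf

@[fun_prop]
protected theorem PTO.nat_div {f g : α → ℕ} (hf : PTO O f) (hg : PTO O g) :
    PTO O (fun a => f a / g a) :=
  PTO.comp₂ (h := fun x y : ℕ => x / y) (PTO.of (by fun_prop)) hf hg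

@[fun_prop]
protected theorem PTO.nat_mod {f g : α → ℕ} (hf : PTO O f) (hg : PTO O g) :
    PTO O (fun a => f a % g a) :=
  PTO.comp₂ (h := fun x y : ℕ => x % y) (PTO.of (by fun_prop)) hf hg

end Pool.Agent.Helper86.Rel
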