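import Pool.Agent.Helper86.Rel.Basic

/-!
Relativised copy of the corresponding file of `Pool.Agent.PolyTime`.
-/

namespace Pool.Agent.Helper86.Rel

open Pool.Agent.PolyTime

variable {O : Set (List Bool)}

/-!
String level closure properties of polynomial-time functions.
-/

/-! ### polynomial bounds -/

protected theorem FPO.pb {f : List Bool → List Bool} (hf : FPO O f) : PB (fun x => (f x).length) :=
  hf.length_pow

/-- iteration, with a polynomial bound in predicate form -/
protected theorem FPO.iterPB {f g h : List Bool → List Bool} (hf : FPO O f) (hg : FPO O g) (hh : FPO O h)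
    {b : List Bool → ℕ} (hb : PB b)
    (hp : ∀ x i, i ≤ (g x).length → (f^[i] (h x)).length ≤ b x) :
    FPO O (fun x => f^[(g x).length] (h x)) := by
  obtain ⟨k, hk⟩ := hb
  refine FPO.iter hf hg hh ((Polynomial.X + 2) ^ k) (fun x i hi => ?_)
  rw [pow_bound_eval]
  exact (hp x i hi).trans (hk x)

/-! ### pairing -/

/-! ### basic functions -/

protected theorem FPO.const (w : List Bool) : FPO O (fun _ => w) := by
  induction w with
  | nil => exact FPO.nil
  | cons b w ih => exact (FPO.cons b).comp ih

protected theorem FPO.cons' (b : Bool) {f : List Bool → List Bool} (hf : FPO O f) : FPO O (fun x => b :: f x) :=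
  (FPO.cons b).comp hf

protected theorem FPO.tail' {f : List Bool → List Bool} (hf : FPO O f) : FPO O (fun x => (f x).tail) :=
  FPO.tail.comp hf

protected theorem FPO.p1' {f : List Bool → List Bool} (hf : FPO O f) : FPO O (fun x => Pool.Agent.PolyTime.p1 (f x)) :=
  FPO.p1.comp hf

protected theorem FPO.p2' {f : List Bool → List Bool} (hf : FPO O f) : FPO O (fun x => Pool.Agent.PolyTime.p2 (f x)) :=
  FPO.p2.comp hf

protected theorem FPO.ite_nil {c f g : List Bool → List Bool} (hc : FPO O c) (hf : FPO O f) (hg : FPO O g) :
    FPO O (fun x => if c x = [] then f x else g x) := by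
  refine (FPO.cases hc hf hg hg).congr (fun x => ?_)
  rcases c x with _ | ⟨_ | _, _⟩ <;> simp

protected theorem FPO.moveStep : FPO O moveStep :=
  FPO.cases FPO.p1 FPO.id (FPO.pair (FPO.tail' FPO.p1) (FPO.cons' false FPO.p2))
    (FPO.pair (FPO.tail' FPO.p1) (FPO.cons' true FPO.p2))

/-- `moves n u v`, with the number of moves given by the length of a string -/
protected theorem FPO.moves {n u v : List Bool → List Bool} (hn : FPO O n) (hu : FPO O u) (hv : FPO O v) :
    FPO O (fun x => Pool.Agent.PolyTime.moveStep^[(n x).length] (pr (u x) (v x))) := by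
  refine FPO.iterPB FPO.moveStep hn (FPO.pair hu hv)
    (b := fun x => 2 * (u x).length + 1 + ((u x).length + (v x).length)) ?_ ?_
  · exact (((PB.const 2).mul hu.pb).add (PB.const 1)).add (hu.pb.add hv.pb)
  · intro x i _
    exact length_moveStep_iter _ _ _

protected theorem FPO.revApp {u v : List Bool → List Bool} (hu : FPO O u) (hv : FPO O v) :
    FPO O (fun x => (u x).reverse ++ v x) := by
  refine (FPO.p2' (FPO.moves hu hu hv)).congr (fun x => ?_)
  rw [moveStep_iter]
  simp

protected theorem FPO.reverse {u : List Bool → List Bool} (hu : FPO O u) : FPO O (fun x => (u x).reverse) :=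
  (FPO.revApp hu FPO.nil).congr (fun x => by simp)

protected theorem FPO.append {u v : List Bool → List Bool} (hu : FPO O u) (hv : FPO O v) :
    FPO O (fun x => u x ++ v x) :=
  (FPO.revApp (FPO.reverse hu) hv).congr (fun x => by simp)

protected theorem FPO.takeLen {n u : List Bool → List Bool} (hn : FPO O n) (hu : FPO O u) :
    FPO O (fun x => (u x).take (n x).length) := by
  refine (FPO.reverse (FPO.p2' (FPO.moves hn hu FPO.nil))).congr (fun x => ?_)
  rw [moveStep_iter]
  simp

protected theorem FPO.dropLen {n u : List Bool → List Bool} (hn : FPO O n) (hu : FPO O u) :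
    FPO O (fun x => (u x).drop (n x).length) := by
  refine (FPO.p1' (FPO.moves hn hu FPO.nil)).congr (fun x => ?_)
  rw [moveStep_iter]
  simp

/-! ### unary polynomials -/

protected theorem FPO.appStep : FPO O appStep := FPO.pair FPO.p1 (FPO.append FPO.p1 FPO.p2)

protected theorem FPO.umul {u v : List Bool → List Bool} (hu : FPO O u) (hv : FPO O v) :
    FPO O (fun x => umul (u x) (v x)) := by
  refine FPO.p2' ?_
  refine FPO.iterPB FPO.appStep hu (FPO.pair hv FPO.nil)
    (b := fun x => 2 * (v x).length + 1 + (u x).length * (v x).length) ?_ ?_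
  · exact (((PB.const 2).mul hv.pb).add (PB.const 1)).add (hu.pb.mul hv.pb)
  · intro x i hi
    obtain ⟨r, h1, h2⟩ := appStep_iter i (v x) []
    rw [h1, length_pr, h2]
    have := Nat.mul_le_mul_right (v x).length hi
    simp only [List.length_nil]
    omega

protected theorem FPO.pad (k : ℕ) : FPO O (pad k) := by
  induction k with
  | zero => exact FPO.const [true]
  | succ k ih =>
    exact FPO.umul (FPO.cons' true (FPO.cons' true FPO.id)) ih

/-! ### iteration with a promise -/

protected theorem FPO.truncStep {f : List Bool → List Bool} (hf : FPO O f) : FPO O (truncStep f) :=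
  FPO.pair FPO.p1 (FPO.takeLen FPO.p1 (hf.comp FPO.p2))

/-- Bounded iteration, where the size bound is only required on the set `D`. -/
protected theorem FPO.iterOn {f g h : List Bool → List Bool} (hf : FPO O f) (hg : FPO O g) (hh : FPO O h)
    (D : Set (List Bool)) (k : ℕ)
    (hb : ∀ x ∈ D, ∀ i ≤ (g x).length, (f^[i] (h x)).length ≤ (x.length + 2) ^ k) :
    ∃ F, FPO O F ∧ ∀ x ∈ D, F x = f^[(g x).length] (h x) := by
  refine ⟨fun x => Pool.Agent.PolyTime.p2 ((Pool.Agent.PolyTime.truncStep f)^[(g x).length]
    (pr (Pool.Agent.PolyTime.pad k x) (h x))), ?_, ?_⟩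
  · refine FPO.p2' (FPO.iterPB (FPO.truncStep hf) hg (FPO.pair (FPO.pad k) hh)
      (b := fun x => 2 * (Pool.Agent.PolyTime.pad k x).length + 1 +
        ((Pool.Agent.PolyTime.pad k x).length + (h x).length)) ?_ ?_)
    · exact (((PB.const 2).mul (FPO.pad (O := O) k).pb).add (PB.const 1)).add
        ((FPO.pad (O := O) k).pb.add hh.pb)
    · intro x i _
      obtain ⟨r, h1, h2⟩ := truncStep_iter_length f i (Pool.Agent.PolyTime.pad k x) (h x)
      rw [h1, length_pr]
      omega
  · intro x hx
    beta_reduce
    rw [truncStep_iter_eq]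
    · simp
    · intro i hi
      rw [length_pad]
      exact hb x hx i hi

end Pool.Agent.Helper86.Rel
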