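import Pool.Agent.Helper86.Rel.More
import Pool.Agent.PolyTime.Classes

/-!
Raw strings and oracle calls.
-/

namespace Pool.Agent.Helper86.Rel

open Pool.Agent.PolyTime

variable {O : Set (List Bool)}

variable {α β γ δ : Type} [PEnc α] [PEnc β] [PEnc γ] [PEnc δ]

/-- on strings, the typed notion agrees with the untyped one -/
theorem pto_string_iff {f : List Bool → List Bool} : PTO O f ↔ FPO O f := by
  obtain ⟨D, hD, hD'⟩ := exists_decString
  constructor
  · rintro ⟨F, hF, hF'⟩
    exact ((FPO.base hD).comp (hF.comp (FPO.base FP_encString))).congr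
      (fun x => by rw [hF', hD'])
  · intro hf
    exact ⟨fun x => enc (f (D x)), (FPO.base FP_encString).comp (hf.comp (FPO.base hD)), fun a => by
      beta_reduce; rw [hD']⟩

theorem PTO.ofFPO {f : List Bool → List Bool} {g : α → List Bool} (hf : FPO O f) (hg : PTO O g) :
    PTO O (fun a => f (g a)) :=
  (pto_string_iff.2 hf).comp hg

theorem PTO.ofFP {f : List Bool → List Bool} {g : α → List Bool} (hf : FP f) (hg : PTO O g) :
    PTO O (fun a => f (g a)) :=
  PTO.ofFPO (FPO.base hf) hg

open Classical in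
@[fun_prop]
theorem PTO.oracle {g : α → List Bool} (hg : PTO O g) : PTO O (fun a => decide (g a ∈ O)) := by
  obtain ⟨D, hD, hD'⟩ := exists_decString
  obtain ⟨G, hG, hG'⟩ := hg
  exact ⟨_, FPO.oracle.comp ((FPO.base hD).comp hG), fun a => by
    beta_reduce; rw [hG', hD']; rfl⟩

/-- the encoding as a string valued function -/
@[fun_prop]
theorem PTO.encode {g : α → β} (hg : PTO O g) : PTO O (fun a => (enc (g a) : List Bool)) := by
  obtain ⟨G, hG, hG'⟩ := hg
  refine ⟨fun x => enc (G x), (FPO.base FP_encString).comp hG, fun a => ?_⟩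
  beta_reduce
  rw [hG']

/-- a raw string function applied to the encoding -/
theorem PTO.decode {F : List Bool → List Bool} {g : α → List Bool} {h : α → β} (hF : FPO O F)
    (hg : PTO O g) (hh : ∀ a, F (g a) = enc (h a)) : PTO O h := by
  obtain ⟨D, hD, hD'⟩ := exists_decString
  obtain ⟨G, hG, hG'⟩ := hg
  exact ⟨_, hF.comp ((FPO.base hD).comp hG), fun a => by rw [hG', hD', hh]⟩

@[fun_prop]
theorem PTO.p1 {g : α → List Bool} (hg : PTO O g) : PTO O (fun a => Pool.Agent.PolyTime.p1 (g a)) :=
  PTO.ofFP FP.p1 hg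

@[fun_prop]
theorem PTO.p2 {g : α → List Bool} (hg : PTO O g) : PTO O (fun a => Pool.Agent.PolyTime.p2 (g a)) :=
  PTO.ofFP FP.p2 hg

@[fun_prop]
theorem PTO.pr {f g : α → List Bool} (hf : PTO O f) (hg : PTO O g) :
    PTO O (fun a => Pool.Agent.PolyTime.pr (f a) (g a)) := by
  obtain ⟨D, hD, hD'⟩ := exists_decString
  obtain ⟨F, hF, hF'⟩ := hf
  obtain ⟨G, hG, hG'⟩ := hg
  exact ⟨_, (FPO.base FP_encString).comp (((FPO.base hD).comp hF).pair ((FPO.base hD).comp hG)),
    fun a => by beta_reduce; rw [hG', hF', hD', hD']⟩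

@[fun_prop]
theorem PTO.pad (k : ℕ) {g : α → List Bool} (hg : PTO O g) :
    PTO O (fun a => Pool.Agent.PolyTime.pad k (g a)) :=
  PTO.ofFP (FP.pad k) hg

theorem size_str (l : List Bool) : size l = 3 * l.length := size_list_bool l

/-- raw pairs of strings versus typed pairs -/
theorem fpo_pair_of_pto {f : List Bool × List Bool → List Bool} (hf : PTO O f) :
    ∃ F : List Bool → List Bool, FPO O F ∧ ∀ x y, F (Pool.Agent.PolyTime.pr x y) = f (x, y) := by
  refine ⟨fun t => f (Pool.Agent.PolyTime.p1 t, Pool.Agent.PolyTime.p2 t), ?_, fun x y => by simp⟩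
  exact pto_string_iff.1 (hf.comp (f := fun t : List Bool =>
    (Pool.Agent.PolyTime.p1 t, Pool.Agent.PolyTime.p2 t)) (by fun_prop))

/-- relative to the empty oracle we get the ordinary notion -/
theorem pto_empty_iff {f : α → β} : PTO (∅ : Set (List Bool)) f ↔ PolyTime f := by
  constructor
  · rintro ⟨F, hF, hF'⟩
    exact ⟨F, fpo_empty_iff.1 hF, hF'⟩
  · exact PTO.of

end Pool.Agent.Helper86.Rel
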